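import Mathlib
import Pool.Agent.TH16.Tak.Main

set_option autoImplicit false

/-!
# The extremal weakened convex function for four points

`MeanIneq m f`: `f` of the mean of `x_1 ≤ ... ≤ x_m` in `[0,1]` is at most the mean of the `f x_i`
plus `x_m - x_1`.  `Fam m`: the functions which satisfy `MeanIneq m`, are nonpositive at `0` and
`1`, and are bounded above on `[0,1]` (without this the supremum is infinite at every irrational
point, last clause).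
`G m x = m^2 * ∑_{k ≥ 1} m^(-k) * min (‖m^(k-1) x‖, 1/m)`.
-/

namespace Pool.Agent.Results.MP_56f843_an.FourPoints

open Pool.Agent.TH16.Tak Set

theorem result :
    (∀ x ∈ Icc (0 : ℝ) 1, IsGreatest ((fun f : ℝ → ℝ => f x) '' Fam 4) (G 4 x)) ∧
    Fam 4 = Fam 2 ∧
    (∀ x : ℝ, G 4 x = ∑' n : ℕ, 2 * (1 / 2 : ℝ) ^ n * dn (2 ^ n * x)) ∧
    (∀ m : ℕ, 5 ≤ m → (∀ f ∈ Fam m, f (4 / (m : ℝ) ^ 2) ≤ 4 / m) ∧
      4 / (m : ℝ) < G m (4 / (m : ℝ) ^ 2)) ∧
    (∀ x : ℝ, Irrational x → ∀ M : ℝ, ∃ f : ℝ → ℝ,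
      f 0 ≤ 0 ∧ f 1 ≤ 0 ∧ (∀ m, 1 ≤ m → MeanIneq m f) ∧ M ≤ f x) := by
  refine ⟨fun x hx => isGreatest_four hx.1 hx.2, Fam_four, fun x => G_four x, fun m hm => ?_,
    fun x hx M => unbounded hx M⟩
  refine ⟨fun f hf => small_value hm hf.1 hf.2.1 hf.2.2.2, ?_⟩
  rw [G_value hm]
  have hM : (0 : ℝ) < (m : ℝ) := by
    have : (5 : ℝ) ≤ (m : ℝ) := by exact_mod_cast hm
    linarith
  exact div_lt_div_of_pos_right (by norm_num) hM

end Pool.Agent.Results.MP_56f843_an.FourPoints
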